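import Pool.Agent.Q256.MP.Stm2
import Pool.Agent.W32.GE.Pts
import Pool.Agent.W276.GE.Union

/-!
# Project MP (helper256), job LIMK: the limit for the systems with small points of given height
-/

set_option autoImplicit false

open Height NumberField Filter Topology
open scoped LinearAlgebra.Projectivization

noncomputable section

namespace Pool.Agent.Q190.MP

open Pool.Agent.W276.GE Pool.Agent.Q256.MP

theorem Rp_mono {N D : ℕ} {Φ Ψ : ∀ (K : Type) [Field K] [NumberField K], (Fin (N + 1) → K) → Prop}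
    (h : ∀ (K : Type) [Field K] [NumberField K] (P : Fin (N + 1) → K), Φ K P → Ψ K P) :
    Rp N D Φ ⊆ Rp N D Ψ := by
  rintro p ⟨z, hz, hp, K, i1, i2, φ, P, hK, hP, hΦ, hzP⟩
  exact ⟨z, hz, hp, K, i1, i2, φ, P, hK, hP, h K P hΦ, hzP⟩

/-- there are finitely many points of bounded height -/
theorem fin_pts (N D : ℕ) (X : ℝ) (hX : 1 ≤ X) :
    (Rp N D (fun _ _ _ P => mulHeight P ≤ X)).Finite := by
  obtain ⟨c, C, h⟩ := Pool.Agent.W32.GE.pts D
  obtain ⟨A, -, hA⟩ := h X hX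
  let W : Set (Fin (N + 1) → ℂ) := {w | w ≠ 0 ∧ ∀ i, w i ∈ A}
  have hW : W.Finite := by
    refine (Fintype.piFinset fun _ : Fin (N + 1) => A).finite_toSet.subset ?_
    rintro w ⟨-, hw⟩
    rw [Finset.mem_coe, Fintype.mem_piFinset]
    exact hw
  have : Finite W := hW.to_subtype
  refine (Set.finite_range fun w : W => Projectivization.mk ℂ w.1 w.2.1).subset ?_
  rintro p ⟨z, hz, rfl, K, i1, i2, φ, P, hK, hP, hPX, hzP⟩
  obtain ⟨a, ha, hap⟩ := exists_norm φ (fun x hx => hA K hK x hx φ) P hP hPX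
  have hw : (fun i => φ (a * P i)) = φ a • z := by
    rw [hzP]
    funext i
    simp
  have hφa : φ a ≠ 0 := by
    rw [Ne, map_eq_zero]
    exact ha
  have hw0 : (fun i => φ (a * P i)) ≠ 0 := by
    rw [hw]
    exact smul_ne_zero hφa hz
  refine ⟨⟨fun i => φ (a * P i), hw0, hap⟩, ?_⟩
  rw [Projectivization.mk_eq_mk_iff']
  exact ⟨φ a, hw.symm⟩

/-- the image of a point is unique -/
theorem Im_unique {N d : ℕ} {F : Sy N d} (hF : NoZero F) {p q q' : Pt N} (h : Im F p q)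
    (h' : Im F p q') : q = q' := by
  obtain ⟨c, hc⟩ := h
  obtain ⟨c', hc'⟩ := h'
  have hc0 : c ≠ 0 := by
    rintro rfl
    exact p.rep_nonzero (hF p.rep fun j => by rw [hc j, zero_mul])
  rw [← q.mk_rep, ← q'.mk_rep, Projectivization.mk_eq_mk_iff']
  refine ⟨c⁻¹ * c', ?_⟩
  funext j
  rw [Pi.smul_apply, smul_eq_mul, mul_assoc, ← hc' j, hc j, ← mul_assoc, inv_mul_cancel₀ hc0, one_mul]

open Classical in
/-- the endomorphisms with coefficients at most `H` and the property `Φ` -/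
def fs (N d H : ℕ) (Φ : Sy N d → Prop) : Finset (Sy N d) :=
  (Fb (N + 1) d H).filter fun F => NoZero F ∧ Φ F

theorem mem_fs {N d H : ℕ} {Φ : Sy N d → Prop} {F : Sy N d} :
    F ∈ fs N d H Φ ↔ F ∈ Fb (N + 1) d H ∧ NoZero F ∧ Φ F := by
  unfold fs
  simp only [Finset.mem_filter]

theorem cnt_eq (N d H : ℕ) (Φ : Sy N d → Prop) : cnt N d H Φ = ((fs N d H Φ).card : ℝ) := by
  have h : {F : Sy N d | F ∈ Fb (N + 1) d H ∧ NoZero F ∧ Φ F} = (fs N d H Φ : Set (Sy N d)) := by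
    ext F
    rw [Finset.mem_coe, mem_fs]
    rfl
  unfold cnt
  rw [h, Set.ncard_coe_finset]

/-- the points of the levels below `κ + 1` -/
theorem of_not_large {N D : ℕ} {X : ℝ} {p : Pt N} (h1 : p ∈ Rp N D (fun _ _ _ _ => True))
    (h2 : p ∉ Rp N D (fun _ _ _ P => X ≤ mulHeight P)) :
    p ∈ Rp N D (fun _ _ _ P => mulHeight P ≤ X) := by
  obtain ⟨z, hz, hp, K, i1, i2, φ, P, hK, hP, -, hzP⟩ := h1
  refine ⟨z, hz, hp, K, i1, i2, φ, P, hK, hP, ?_, hzP⟩
  by_contra hlt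
  exact h2 ⟨z, hz, hp, K, i1, i2, φ, P, hK, hP, (not_le.1 hlt).le, hzP⟩

/-- **LIMK** -/
theorem limk (h : S_plim) : S_limk := by
  classical
  intro N D m hN hD hm
  obtain ⟨d₀, hd⟩ := h N D m hN hD hm
  refine ⟨d₀, fun d hdd => ?_⟩
  obtain ⟨θ₀, hθ0, hθ⟩ := hd d hdd
  refine ⟨θ₀, hθ0, fun θ h1 h2 S κ => ?_⟩
  let I : Set ((Fin m → Fin m) × (Fin m → Pt N)) := {x | x.1 ∈ S ∧ Function.Injective x.2 ∧
    Lv N D κ (Set.range x.2) ∧ ∀ i, x.2 i ∈ Rp N D (fun _ _ _ _ => True)}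
  have hI : I.Finite := by
    have hT := fin_pts N D (2 ^ (κ + 1)) (one_le_pow₀ one_le_two)
    refine ((Set.finite_univ (α := Fin m → Fin m)).prod (Set.Finite.pi' fun _ : Fin m => hT)).subset ?_
    rintro x ⟨-, -, hL, hR⟩
    refine ⟨Set.mem_univ _, fun i => ?_⟩
    exact of_not_large (hR i) (hL.1 _ ⟨i, rfl⟩)
  let G : (Fin m → Fin m) × (Fin m → Pt N) → Set (Pt N × Pt N) := fun x =>
    Set.range fun i => (x.2 i, x.2 (x.1 i))
  have hfst : ∀ x, Prod.fst '' G x = Set.range x.2 := by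
    intro x
    ext q
    constructor
    · rintro ⟨_, ⟨i, rfl⟩, rfl⟩
      exact ⟨i, rfl⟩
    · rintro ⟨i, rfl⟩
      exact ⟨_, ⟨i, rfl⟩, rfl⟩
  have key : ∀ g, g ∈ G '' I → ∃ x, x ∈ I ∧ G x = g := fun g hg => hg
  have hne1 : (fun _ : Fin (N + 1) => (1 : ℂ)) ≠ 0 := fun h0 => one_ne_zero (congrFun h0 0)
  have : Nonempty ((Fin m → Fin m) × (Fin m → Pt N)) := ⟨(id, fun _ => Projectivization.mk ℂ _ hne1)⟩
  choose! rep hrep using key
  let Φ : Set (Pt N × Pt N) → ℕ → Sy N d → Prop := fun g H F =>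
    Sm N D θ H F = Set.range (rep g).2 ∧ ∀ i, Im F ((rep g).2 i) ((rep g).2 ((rep g).1 i))
  have lim : ∀ g, g ∈ G '' I → ∃ v : ℝ, Tendsto (fun H : ℕ => cnt N d H (Φ g H) /
      (H : ℝ) ^ (QQ N d - m * N)) atTop (𝓝 v) := by
    intro g hg
    obtain ⟨⟨-, hinj, -, hR⟩, -⟩ := hrep g hg
    exact hθ θ h1 h2 (rep g).1 (rep g).2 hinj hR
  choose! v hv using lim
  refine ⟨∑ g ∈ (hI.image G).toFinset, v g, ?_⟩
  have hcount : ∀ H : ℕ, cnt N d H (fun F => Por N D θ S H F ∧ Lv N D κ (Sm N D θ H F)) =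
      ∑ g ∈ (hI.image G).toFinset, cnt N d H (Φ g H) := by
    intro H
    simp only [cnt_eq]
    rw [← Nat.cast_sum, ← Finset.card_biUnion]
    · congr 2
      ext F
      rw [mem_fs, Finset.mem_biUnion]
      constructor
      · rintro ⟨hF, hNZ, ⟨σ, hσ, p, hp, hSm, hIm⟩, hLv⟩
        have hx : (σ, p) ∈ I := by
          refine ⟨hσ, hp, ?_, fun i => ?_⟩
          · rw [hSm] at hLv
            exact hLv
          · have h3 : p i ∈ Sm N D θ H F := by
              rw [hSm]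
              exact ⟨i, rfl⟩
            exact Rp_mono (fun _ _ _ _ _ => trivial) h3
        have hg : G (σ, p) ∈ G '' I := ⟨_, hx, rfl⟩
        obtain ⟨-, hr⟩ := hrep _ hg
        refine ⟨G (σ, p), (hI.image G).mem_toFinset.2 hg, ?_⟩
        rw [mem_fs]
        refine ⟨hF, hNZ, ?_, fun i => ?_⟩
        · rw [hSm, ← hfst, hr, hfst]
        · have h4 : ((rep (G (σ, p))).2 i, (rep (G (σ, p))).2 ((rep (G (σ, p))).1 i)) ∈
              G (rep (G (σ, p))) := ⟨i, rfl⟩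
          rw [hr] at h4
          obtain ⟨j, hj⟩ := h4
          have h5 := hIm j
          have h6 : p j = (rep (G (σ, p))).2 i := congrArg Prod.fst hj
          have h7 : p (σ j) = (rep (G (σ, p))).2 ((rep (G (σ, p))).1 i) := congrArg Prod.snd hj
          rwa [h6, h7] at h5
      · rintro ⟨g, hg, hFg⟩
        rw [mem_fs] at hFg
        obtain ⟨hF, hNZ, hSm, hIm⟩ := hFg
        obtain ⟨⟨hS, hinj, hL, -⟩, -⟩ := hrep g ((hI.image G).mem_toFinset.1 hg)
        refine ⟨hF, hNZ, ⟨(rep g).1, hS, (rep g).2, hinj, hSm, hIm⟩, ?_⟩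
        rw [hSm]
        exact hL
    · intro g hg g' hg' hne
      have hg1 := (hI.image G).mem_toFinset.1 hg
      have hg1' := (hI.image G).mem_toFinset.1 hg'
      rw [Function.onFun, Finset.disjoint_left]
      intro F hF hF'
      rw [mem_fs] at hF hF'
      obtain ⟨-, hNZ, hSm, hIm⟩ := hF
      obtain ⟨-, -, hSm', hIm'⟩ := hF'
      apply hne
      have hsub : ∀ a b : Set (Pt N × Pt N), a ∈ G '' I → b ∈ G '' I → Φ a H F → Φ b H F → a ⊆ b := by
        rintro a b ha hb ⟨h3, h4⟩ ⟨h5, h6⟩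
        obtain ⟨-, hra⟩ := hrep a ha
        obtain ⟨-, hrb⟩ := hrep b hb
        rw [← hra, ← hrb]
        rintro _ ⟨i, rfl⟩
        have h7 : (rep a).2 i ∈ Set.range (rep b).2 := by
          rw [← h5, h3]
          exact ⟨i, rfl⟩
        obtain ⟨j, hj⟩ := h7
        refine ⟨j, ?_⟩
        have h8 := h6 j
        rw [hj] at h8
        have h9 := Im_unique hNZ h8 (h4 i)
        change ((rep b).2 j, (rep b).2 ((rep b).1 j)) = ((rep a).2 i, (rep a).2 ((rep a).1 i))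
        rw [hj, h9]
      exact Set.Subset.antisymm (hsub g g' hg1 hg1' ⟨hSm, hIm⟩ ⟨hSm', hIm'⟩)
        (hsub g' g hg1' hg1 ⟨hSm', hIm'⟩ ⟨hSm, hIm⟩)
  simp_rw [hcount, Finset.sum_div]
  exact tendsto_finsetSum _ fun g hg => hv g ((hI.image G).mem_toFinset.1 hg)

end Pool.Agent.Q190.MP
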