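import Pool.Agent.Q190.MP.Limk
import Pool.Agent.Q96.MP_Base
import Pool.Agent.W276.GE.Conv

/-!
# Project MP (helper256), job TAN: the limit for the systems with exactly `m` small points
-/

set_option autoImplicit false

open Height NumberField Filter Topology
open scoped LinearAlgebra.Projectivization

noncomputable section

namespace Pool.Agent.Q190.MP

open Pool.Agent.W276.GE Pool.Agent.Q256.MP Pool.Agent.Q96.MP

/-- `p` is the point with the coordinates `φ (P)` -/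
def Is {N : ℕ} {K : Type} [Field K] (φ : K →+* ℂ) (P : Fin (N + 1) → K) (p : Pt N) : Prop :=
  ∃ h : (fun j => φ (P j)) ≠ 0, Projectivization.mk ℂ (fun j => φ (P j)) h = p

theorem is_fm {N d : ℕ} {F : Sy N d} (hF : NoZero F) {K : Type} [Field K] {φ : K →+* ℂ}
    {P : Fin (N + 1) → K} {p q : Pt N} (h : Is φ P p) (hI : Im F p q) : Is φ (fm F K P) q := by
  obtain ⟨hz, rfl⟩ := h
  obtain ⟨c, hc⟩ := hI
  obtain ⟨a, ha⟩ := Projectivization.exists_smul_eq_mk_rep ℂ (fun j => φ (P j)) hz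
  have hw : (fun j => φ (fm F K P j)) ≠ 0 := by
    intro h0
    apply hz
    apply hF
    intro j
    have h1 := congrFun h0 j
    change φ (ev (F j) P) = 0 at h1
    rw [ev_map] at h1
    exact h1
  refine ⟨hw, ?_⟩
  have h1 : ∀ j, ev (F j) (Projectivization.mk ℂ (fun j => φ (P j)) hz).rep =
      (a : ℂ) ^ d * φ (fm F K P j) := by
    intro j
    rw [← ha]
    change ev (F j) (fun i => (a : ℂ) * φ (P i)) = (a : ℂ) ^ d * φ (ev (F j) P)
    rw [ev_smul, ev_map]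
  have ha0 : ((a : ℂ)) ^ d ≠ 0 := pow_ne_zero _ a.ne_zero
  rw [← q.mk_rep, Projectivization.mk_eq_mk_iff']
  refine ⟨((a : ℂ) ^ d)⁻¹ * c, ?_⟩
  funext j
  have h2 := h1 j
  rw [hc j] at h2
  change ((a : ℂ) ^ d)⁻¹ * c * q.rep j = φ (fm F K P j)
  rw [mul_assoc, h2, ← mul_assoc, inv_mul_cancel₀ ha0, one_mul]

theorem is_prop {N : ℕ} {K : Type} [Field K] {φ : K →+* ℂ} {P Q : Fin (N + 1) → K} {p : Pt N}
    (h : Is φ P p) (h' : Is φ Q p) : ∃ c : K, c ≠ 0 ∧ Q = c • P := by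
  obtain ⟨hz, h1⟩ := h
  obtain ⟨hz', h2⟩ := h'
  rw [← h1, Projectivization.mk_eq_mk_iff'] at h2
  obtain ⟨a, ha⟩ := h2
  have h3 : ∀ j, a * φ (P j) = φ (Q j) := fun j => congrFun ha j
  obtain ⟨j, hj⟩ : ∃ j, P j ≠ 0 := by
    by_contra hcon
    push Not at hcon
    apply hz
    funext j
    rw [hcon j, map_zero]
    rfl
  have hj' : φ (P j) ≠ 0 := (map_ne_zero φ).2 hj
  have h4 : a = φ (Q j / P j) := by
    rw [map_div₀, ← h3 j, mul_div_assoc, div_self hj', mul_one]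
  have h5 : ∀ i, Q i = Q j / P j * P i := by
    intro i
    apply φ.injective
    rw [map_mul, ← h4, h3 i]
  refine ⟨Q j / P j, ?_, funext h5⟩
  intro h0
  apply hz'
  funext i
  rw [h5 i, h0, zero_mul, map_zero]
  rfl

theorem is_iter {N d m : ℕ} {F : Sy N d} (hF : NoZero F) {σ : Fin m → Fin m} {p : Fin m → Pt N}
    (hIm : ∀ i, Im F (p i) (p (σ i))) {K : Type} [Field K] {φ : K →+* ℂ}
    {P : Fin (N + 1) → K} {i : Fin m} (h : Is φ P (p i)) (k : ℕ) :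
    Is φ ((fm F K)^[k] P) (p (σ^[k] i)) := by
  induction k with
  | zero => exact h
  | succ k ih =>
    rw [Function.iterate_succ_apply', Function.iterate_succ_apply']
    exact is_fm hF ih (hIm _)

/-- the points of a finite invariant set are preperiodic -/
theorem is_pp {N d m : ℕ} {F : Sy N d} (hF : NoZero F) {σ : Fin m → Fin m} {p : Fin m → Pt N}
    (hIm : ∀ i, Im F (p i) (p (σ i))) {K : Type} [Field K] {φ : K →+* ℂ}
    {P : Fin (N + 1) → K} {i : Fin m} (h : Is φ P (p i)) : Pp F K P := by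
  obtain ⟨k, l, hkl, he⟩ : ∃ k l : ℕ, k < l ∧ σ^[k] i = σ^[l] i := by
    obtain ⟨k, l, hne, he⟩ := Finite.exists_ne_map_eq_of_infinite (fun k : ℕ => σ^[k] i)
    rcases Nat.lt_or_gt_of_ne hne with h1 | h1
    · exact ⟨k, l, h1, he⟩
    · exact ⟨l, k, h1, he.symm⟩
  refine ⟨k, l, hkl, ?_⟩
  have h1 := is_iter hF hIm h k
  have h2 := is_iter hF hIm h l
  rw [← he] at h2
  exact is_prop h1 h2

/-- the systems of given level are among those counted in `S_lev` -/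
theorem lev_of_por {N D d m κ : ℕ} {θ : ℝ} {S : Set (Fin m → Fin m)} {H : ℕ} {F : Sy N d}
    (hF : NoZero F) (h : Por N D θ S H F) (hL : Lv N D κ (Sm N D θ H F)) :
    ∃ z : Fin m → Fin (N + 1) → ℂ, Sep z ∧
      (∀ i, Rep (N + 1) D
        (fun K _ _ P => mulHeight P ≤ 2 ^ (κ + 1) ∧ mulHeight (fm F K P) ≤ 2 ^ (κ + 1)) (z i)) ∧
      ∃ i, Rep (N + 1) D (fun _ _ _ P => (2 : ℝ) ^ κ ≤ mulHeight P) (z i) := by
  obtain ⟨σ, -, p, hp, hSm, hIm⟩ := h
  rw [hSm] at hL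
  obtain ⟨hL1, _, ⟨i₀, rfl⟩, hL2⟩ := hL
  have key : ∀ i, ∃ z : Fin (N + 1) → ℂ, (∃ hz : z ≠ 0, p i = Projectivization.mk ℂ z hz) ∧
      Rep (N + 1) D (fun _ _ _ _ => True) z ∧
      (i = i₀ → Rep (N + 1) D (fun _ _ _ P => (2 : ℝ) ^ κ ≤ mulHeight P) z) := by
    intro i
    by_cases hi : i = i₀
    · subst hi
      obtain ⟨z, hz, hpz, hR⟩ := hL2
      refine ⟨z, ⟨hz, hpz⟩, ?_, fun _ => hR⟩
      obtain ⟨K, i1, i2, φ, P, hK, hP, -, hzP⟩ := hR
      exact ⟨K, i1, i2, φ, P, hK, hP, trivial, hzP⟩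
    · have h3 : p i ∈ Sm N D θ H F := by
        rw [hSm]
        exact ⟨i, rfl⟩
      obtain ⟨z, hz, hpz, K, i1, i2, φ, P, hK, hP, -, hzP⟩ := h3
      exact ⟨z, ⟨hz, hpz⟩, ⟨K, i1, i2, φ, P, hK, hP, trivial, hzP⟩, fun h => absurd h hi⟩
  choose z hz hR hR0 using key
  refine ⟨z, ⟨fun i => (hz i).1, fun i j hij c hc => hij (hp ?_)⟩, fun i => ?_, i₀, hR0 i₀ rfl⟩
  · obtain ⟨h1, h2⟩ := hz i
    obtain ⟨h3, h4⟩ := hz j
    rw [h2, h4, Projectivization.mk_eq_mk_iff']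
    exact ⟨c, hc.symm⟩
  · obtain ⟨h1, h2⟩ := hz i
    obtain ⟨K, i1, i2, φ, P, hK, hP, -, hzP⟩ := hR i
    have h3 : Is φ P (p i) := by
      refine ⟨by rw [← hzP]; exact h1, ?_⟩
      rw [h2]
      congr 1
      exact hzP.symm
    have h4 : ∀ (Q : Fin (N + 1) → K) (j : Fin m), Q ≠ 0 → Is φ Q (p j) → mulHeight Q ≤ 2 ^ (κ + 1) := by
      intro Q j hQ hj
      by_contra hcon
      push Not at hcon
      obtain ⟨h5, h6⟩ := hj
      exact hL1 (p j) ⟨j, rfl⟩ ⟨_, h5, h6.symm, K, i1, i2, φ, Q, hK, hQ, hcon.le, rfl⟩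
    exact ⟨K, i1, i2, φ, P, hK, hP, ⟨h4 P i hP h3, h4 _ (σ i) (fm_ne hF hP) (is_fm hF h3 (hIm i))⟩,
      hzP⟩

/-- a system with `Por` without a point of large height with a small image has a level -/
theorem ex_lev {N D d m κ₀ : ℕ} (hm : 1 ≤ m) {θ : ℝ} {S : Set (Fin m → Fin m)} {H : ℕ} {F : Sy N d}
    (hF : NoZero F) (h : Por N D θ S H F) (hT : ¬ Tl D 1 κ₀ F) :
    ∃ κ < κ₀, Por N D θ S H F ∧ Lv N D κ (Sm N D θ H F) := by
  classical
  have hpor := h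
  obtain ⟨σ, -, p, hp, hSm, hIm⟩ := h
  let T : ℕ → Prop := fun κ => ∃ q ∈ Sm N D θ H F, q ∈ Rp N D (fun _ _ _ P => (2 : ℝ) ^ κ ≤ mulHeight P)
  have hTb : ∀ κ, T κ → κ < κ₀ := by
    rintro κ ⟨q, hq, z, hz, hqz, K, i1, i2, φ, P, hK, hP, hk, hzP⟩
    rw [hSm] at hq
    obtain ⟨i, rfl⟩ := hq
    have h3 : Is φ P (p i) := by
      refine ⟨by rw [← hzP]; exact hz, ?_⟩
      rw [hqz]
      congr 1
      exact hzP.symm
    have h4 := pp_height hF hT hK hP (is_pp hF hIm h3)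
    exact (pow_lt_pow_iff_right₀ (by norm_num : (1 : ℝ) < 2)).1 (hk.trans_lt h4)
  have hT0 : T 0 := by
    have h3 : p ⟨0, by omega⟩ ∈ Sm N D θ H F := by
      rw [hSm]
      exact ⟨_, rfl⟩
    refine ⟨_, h3, Rp_mono (fun K _ _ P _ => ?_) h3⟩
    rw [pow_zero]
    exact one_le_mulHeight P
  obtain ⟨κ, hκT, hκmax⟩ : ∃ κ, T κ ∧ ∀ κ', T κ' → κ' ≤ κ := by
    refine ⟨Nat.findGreatest T κ₀, Nat.findGreatest_spec (Nat.zero_le _) hT0, ?_⟩
    intro κ' h'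
    exact Nat.le_findGreatest (hTb κ' h').le h'
  refine ⟨κ, hTb κ hκT, hpor, fun q hq hq' => ?_, hκT⟩
  have := hκmax (κ + 1) ⟨q, hq, hq'⟩
  omega

theorem lv_disj {N D κ κ' : ℕ} {Z : Set (Pt N)} (h : Lv N D κ Z) (h' : Lv N D κ' Z) : κ = κ' := by
  have key : ∀ a b : ℕ, Lv N D a Z → Lv N D b Z → b ≤ a := by
    rintro a b ⟨ha, -⟩ ⟨-, q, hq, hqb⟩
    by_contra hcon
    push Not at hcon
    refine ha q hq (Rp_mono (fun K _ _ P hP => ?_) hqb)
    exact (pow_le_pow_right₀ (by norm_num : (1 : ℝ) ≤ 2) (by omega : a + 1 ≤ b)).trans hP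
  exact le_antisymm (key κ' κ h' h) (key κ κ' h h')

/-- the sum of the numbers of the systems of the levels below `L` -/
theorem sum_lev {N D d m : ℕ} (θ : ℝ) (S : Set (Fin m → Fin m)) (H L : ℕ) :
    ∑ κ ∈ Finset.range L, cnt N d H (fun F => Por N D θ S H F ∧ Lv N D κ (Sm N D θ H F)) ≤
      cnt N d H (fun F => Por N D θ S H F) := by
  classical
  simp only [cnt_eq]
  rw [← Nat.cast_sum, ← Finset.card_biUnion]
  · refine Nat.cast_le.2 (Finset.card_le_card ?_)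
    intro F hF
    rw [Finset.mem_biUnion] at hF
    obtain ⟨κ, -, hF⟩ := hF
    rw [mem_fs] at hF ⊢
    exact ⟨hF.1, hF.2.1, hF.2.2.1⟩
  · intro κ _ κ' _ hne
    rw [Function.onFun, Finset.disjoint_left]
    intro F hF hF'
    rw [mem_fs] at hF hF'
    exact hne (lv_disj hF.2.2.2 hF'.2.2.2)

theorem pt_ne (N i : ℕ) : (fun j => (pt N i j : ℂ)) ≠ 0 := by
  intro h
  have h1 := congrFun h 0
  simp [pt] at h1

/-- the points `(1 : i : 0 : … : 0)` -/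
def ppt (N m : ℕ) (i : Fin m) : Pt N := Projectivization.mk ℂ (fun j => (pt N i j : ℂ)) (pt_ne N i)

theorem ppt_inj {N m : ℕ} (hN : 1 ≤ N) : Function.Injective (ppt N m) := by
  intro i j h
  rw [ppt, ppt, Projectivization.mk_eq_mk_iff'] at h
  obtain ⟨a, ha⟩ := h
  have h0 := congrFun ha 0
  have h1 := congrFun ha ⟨1, by omega⟩
  have e0 : a * ((pt N j 0 : ℤ) : ℂ) = ((pt N i 0 : ℤ) : ℂ) := h0
  have e1 : a * ((pt N j ⟨1, by omega⟩ : ℤ) : ℂ) = ((pt N i ⟨1, by omega⟩ : ℤ) : ℂ) := h1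
  have f0 : ∀ k : ℕ, pt N k 0 = 1 := fun k => by simp [pt]
  have f1 : ∀ k : ℕ, pt N k ⟨1, by omega⟩ = k := fun k => by simp [pt]
  rw [f0, f0, Int.cast_one, mul_one] at e0
  rw [f1, f1, e0, one_mul] at e1
  apply Fin.ext
  have e2 : ((j : ℕ) : ℤ) = ((i : ℕ) : ℤ) := by exact_mod_cast e1
  omega

theorem gr_mono {n d : ℕ} {θ θ₁ : ℝ} (hθ : θ ≤ θ₁) {H : ℕ} {F : Fin n → E n d → ℤ} {K : Type}
    [Field K] [NumberField K] {P : Fin n → K} (h : Gr θ₁ H F K P) : Gr θ H F K P := by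
  obtain ⟨k₀, hk⟩ := h
  refine ⟨k₀, fun k hkk => le_trans ?_ (hk k hkk)⟩
  have h1 : 0 ≤ Real.log (H : ℝ) := Real.log_natCast_nonneg H
  have h2 : (0 : ℝ) ≤ (d : ℝ) ^ k := by positivity
  have h3 : (0 : ℝ) ≤ (Module.finrank ℚ K : ℝ) := Nat.cast_nonneg _
  gcongr

theorem exa_por {N D d m : ℕ} (hN : 1 ≤ N) (hD : 1 ≤ D) {θ θ₁ : ℝ} (hθ : θ ≤ θ₁)
    {S : Set (Fin m → Fin m)} {σ : Fin m → Fin m} (hσ : σ ∈ S) {H : ℕ} {F : Sy N d} (hF : NoZero F)
    (h1 : ∀ i : Fin m, ∃ c : ℤ, c ≠ 0 ∧ ∀ j, ev (F j) (pt N i) = c * pt N (σ i) j)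
    (h2 : ∀ z : Fin (N + 1) → ℂ,
      Rep (N + 1) D (fun K _ _ P => Pp F K P ∨ ¬ Gr θ₁ H F K P) z →
        ∃ (i : Fin m) (c : ℂ), z = c • fun j => (pt N i j : ℂ)) : Por N D θ S H F := by
  have hIm : ∀ i, Im F (ppt N m i) (ppt N m (σ i)) := by
    intro i
    obtain ⟨c, hc, hcj⟩ := h1 i
    obtain ⟨a, ha⟩ := Projectivization.exists_smul_eq_mk_rep ℂ _ (pt_ne N i)
    obtain ⟨b, hb⟩ := Projectivization.exists_smul_eq_mk_rep ℂ _ (pt_ne N (σ i))
    have hb0 : (b : ℂ) ≠ 0 := b.ne_zero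
    refine ⟨(a : ℂ) ^ d * c * (b : ℂ)⁻¹, fun j => ?_⟩
    have e1 : ev (F j) (ppt N m i).rep = (a : ℂ) ^ d * ((c : ℂ) * (pt N (σ i) j : ℂ)) := by
      have h3 : (ppt N m i).rep = fun l => (a : ℂ) * (pt N i l : ℂ) := ha.symm
      have h4 := ev_map (Int.castRingHom ℂ) (F j) (pt N i)
      rw [hcj j, map_mul] at h4
      rw [h3, ev_smul]
      congr 1
      exact h4.symm
    have e2 : (ppt N m (σ i)).rep j = (b : ℂ) * (pt N (σ i) j : ℂ) := (congrFun hb j).symm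
    rw [e1, e2]
    field_simp
  refine ⟨σ, hσ, ppt N m, ppt_inj hN, ?_, hIm⟩
  ext q
  constructor
  · rintro ⟨z, hz, rfl, K, i1, i2, φ, P, hK, hP, hPp, hzP⟩
    have hR : Rep (N + 1) D (fun K _ _ P => Pp F K P ∨ ¬ Gr θ₁ H F K P) z :=
      ⟨K, i1, i2, φ, P, hK, hP, hPp.imp id (fun h h' => h (gr_mono hθ h')), hzP⟩
    obtain ⟨i, c, hc⟩ := h2 z hR
    refine ⟨i, Eq.symm ?_⟩
    rw [ppt, Projectivization.mk_eq_mk_iff']
    exact ⟨c, hc.symm⟩
  · rintro ⟨i, rfl⟩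
    have hcast : (fun j => (pt N i j : ℂ)) = fun j => (algebraMap ℚ ℂ) ((pt N i j : ℤ) : ℚ) := by
      funext j
      simp
    have hne : (fun j => (algebraMap ℚ ℂ) ((pt N i j : ℤ) : ℚ)) ≠ 0 := by
      rw [← hcast]
      exact pt_ne N i
    have hP : (fun j => ((pt N i j : ℤ) : ℚ)) ≠ 0 := by
      intro h0
      apply hne
      funext j
      rw [congrFun h0 j]
      simp
    have hIs : Is (algebraMap ℚ ℂ) (fun j => ((pt N i j : ℤ) : ℚ)) (ppt N m i) := by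
      refine ⟨hne, ?_⟩
      rw [ppt]
      congr 1
    refine ⟨_, pt_ne N i, rfl, ℚ, inferInstance, inferInstance, algebraMap ℚ ℂ, _, ?_, hP,
      Or.inl (is_pp hF hIm hIs), hcast⟩
    rw [Module.finrank_self]
    exact hD

/-- **TAN** -/
theorem tan (h1 : S_limk) (h2 : S_lev) (h3 : S_tail) (h4 : S_exa) : S_tan := by
  classical
  intro N D m hN hD hm
  obtain ⟨d1, hd1⟩ := h1 N D m hN hD hm
  obtain ⟨d2, hd2⟩ := h2 N D m hN hD hm
  obtain ⟨d3, hd3⟩ := h3 N D 1 (m * N) hN hD le_rfl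
  obtain ⟨d4, hd4⟩ := h4 N D m hN hD hm
  refine ⟨max (max d1 d2) (max d3 d4), fun d hd => ?_⟩
  simp only [max_le_iff] at hd
  obtain ⟨⟨hd1', hd2'⟩, hd3', hd4'⟩ := hd
  obtain ⟨θ1, hθ1, hlim⟩ := hd1 d hd1'
  obtain ⟨C2, hC2, hlev⟩ := hd2 d hd2'
  obtain ⟨C3, hC3, htail⟩ := hd3 d hd3'
  obtain ⟨θ4, hθ4, hexa⟩ := hd4 d hd4'
  refine ⟨min θ1 θ4, lt_min hθ1 hθ4, fun θ hθ0 hθ S hS => ?_⟩
  obtain ⟨σ, hσ⟩ := hS
  have hlim' := hlim θ hθ0 (hθ.trans (min_le_left _ _)) S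
  choose v hv using hlim'
  let b : ℕ → ℕ → ℝ := fun κ H =>
    cnt N d H (fun F => Por N D θ S H F ∧ Lv N D κ (Sm N D θ H F))
  let B : ℕ → ℝ := fun H => cnt N d H (fun F => Por N D θ S H F)
  let r : ℕ → ℝ := fun H => (H : ℝ) ^ (QQ N d - m * N)
  let f : ℕ → ℕ → ℝ := fun H κ => if (2 : ℝ) ^ κ ≤ H then b κ H / r H else 0
  have hb0 : ∀ κ H, 0 ≤ b κ H := fun κ H => cnt_nonneg _
  have hr0 : ∀ H, 1 ≤ H → 0 < r H := by
    intro H hH
    have : (0 : ℝ) < H := by exact_mod_cast hH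
    positivity
  have hfb : ∀ H, 1 ≤ H → ∀ κ, ‖f H κ‖ ≤ C2 * (1 / 2) ^ κ := by
    intro H hH κ
    by_cases hk : (2 : ℝ) ^ κ ≤ H
    · have e : f H κ = b κ H / r H := if_pos hk
      rw [e, Real.norm_of_nonneg (div_nonneg (hb0 κ H) (hr0 H hH).le), div_le_iff₀ (hr0 H hH)]
      refine (cnt_mono fun F _ hF hP => lev_of_por hF hP.1 hP.2).trans
        ((hlev H hH κ hk).trans_eq ?_)
      ring
    · have e : f H κ = 0 := if_neg hk
      rw [e, norm_zero]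
      positivity
  have hft : ∀ κ, Tendsto (fun H => f H κ) atTop (𝓝 (v κ)) := by
    intro κ
    refine (hv κ).congr' ?_
    filter_upwards [eventually_ge_atTop (2 ^ κ)] with H hH
    have hk : (2 : ℝ) ^ κ ≤ H := by exact_mod_cast hH
    exact (if_pos hk).symm
  have hsum : Tendsto (fun H => ∑' κ, f H κ) atTop (𝓝 (∑' κ, v κ)) := by
    refine tendsto_tsum_of_dominated_convergence (bound := fun κ => C2 * (1 / 2) ^ κ) ?_ hft ?_
    · exact summable_geometric_two.mul_left _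
    · filter_upwards [eventually_ge_atTop 1] with H hH κ
      exact hfb H hH κ
  have hfs : ∀ H, 1 ≤ H →
      ∑' κ, f H κ = (∑ κ ∈ Finset.range (Nat.log 2 H + 1), b κ H) / r H := by
    intro H hH
    rw [tsum_eq_sum (s := Finset.range (Nat.log 2 H + 1)), Finset.sum_div]
    · refine Finset.sum_congr rfl fun κ hκ => if_pos ?_
      have h5 : 2 ^ κ ≤ H :=
        Nat.pow_le_of_le_log (by omega) (by have := Finset.mem_range.1 hκ; omega)
      exact_mod_cast h5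
    · intro κ hκ
      refine if_neg fun h5 => hκ (Finset.mem_range.2 ?_)
      have h6 : 2 ^ κ ≤ H := by exact_mod_cast h5
      have h7 := Nat.le_log_of_pow_le (by norm_num : 1 < 2) h6
      omega
  have hlow : ∀ H, 1 ≤ H → ∑' κ, f H κ ≤ B H / r H := by
    intro H hH
    rw [hfs H hH]
    exact div_le_div_of_nonneg_right (sum_lev θ S H _) (hr0 H hH).le
  have hQ : N ≤ QQ N d := by
    have h5 : 0 < Fintype.card (E (N + 1) d) := by
      rw [card_E]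
      exact Nat.choose_pos (Nat.le_add_right N d)
    change N ≤ (N + 1) * Fintype.card (E (N + 1) d)
    nlinarith
  have hup : ∀ H, 1 ≤ H → B H / r H ≤ ∑' κ, f H κ + C3 / H := by
    intro H hH
    have hH1 : (1 : ℝ) ≤ H := by exact_mod_cast hH
    have hHL : (H : ℝ) ≤ 2 ^ (Nat.log 2 H + 1) := by
      have := (Nat.lt_pow_succ_log_self (by norm_num : 1 < 2) H).le
      exact_mod_cast this
    have e1 : B H ≤ cnt N d H (Tl D 1 (Nat.log 2 H + 1)) +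
        ∑ κ ∈ Finset.range (Nat.log 2 H + 1), b κ H := by
      refine (cnt_or (Ψ := Tl D 1 (Nat.log 2 H + 1)) (Θ := fun F => ¬ Tl D 1 (Nat.log 2 H + 1) F ∧
        Por N D θ S H F) ?_).trans ?_
      · intro F _ _ h
        by_cases hh : Tl D 1 (Nat.log 2 H + 1) F
        · exact Or.inl hh
        · exact Or.inr ⟨hh, h⟩
      · refine add_le_add le_rfl (cnt_ex (fun κ F => Por N D θ S H F ∧ Lv N D κ (Sm N D θ H F)) _ ?_)
        rintro F - hF ⟨hT, hP⟩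
        exact ex_lev hm hF hP hT
    have e2 : cnt N d H (Tl D 1 (Nat.log 2 H + 1)) ≤ C3 / H * r H := by
      refine (htail H hH (Nat.log 2 H + 1)).trans ?_
      have h5 : (1 / 2 : ℝ) ^ (m * N * (Nat.log 2 H + 1)) =
          1 / (2 ^ (Nat.log 2 H + 1)) ^ (m * N) := by
        rw [one_div_pow, ← pow_mul, mul_comm (Nat.log 2 H + 1)]
      rw [h5, mul_one_div, div_le_iff₀ (by positivity), mul_assoc, div_mul_eq_mul_div,
        le_div_iff₀ (by positivity), mul_assoc]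
      apply mul_le_mul_of_nonneg_left _ hC3.le
      calc (H : ℝ) ^ (QQ N d - N) * H = (H : ℝ) ^ (QQ N d - N + 1) := (pow_succ _ _).symm
        _ ≤ (H : ℝ) ^ ((QQ N d - m * N) + m * N) := pow_le_pow_right₀ hH1 (by omega)
        _ = (H : ℝ) ^ (QQ N d - m * N) * (H : ℝ) ^ (m * N) := pow_add _ _ _
        _ ≤ (H : ℝ) ^ (QQ N d - m * N) * (2 ^ (Nat.log 2 H + 1)) ^ (m * N) := by gcongr
    rw [hfs H hH, div_le_iff₀ (hr0 H hH), add_mul, div_mul_cancel₀ _ (hr0 H hH).ne']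
    linarith
  have hT : Tendsto (fun H => B H / r H) atTop (𝓝 (∑' κ, v κ)) := by
    have h5 : Tendsto (fun H : ℕ => ∑' κ, f H κ + C3 / (H : ℝ)) atTop (𝓝 (∑' κ, v κ)) := by
      have h6 : Tendsto (fun H : ℕ => C3 / (H : ℝ)) atTop (𝓝 0) :=
        tendsto_const_div_atTop_nhds_zero_nat C3
      have h7 := hsum.add h6
      rwa [add_zero] at h7
    refine tendsto_of_tendsto_of_tendsto_of_le_of_le' hsum h5 ?_ ?_
    · filter_upwards [eventually_ge_atTop 1] with H hH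
      exact hlow H hH
    · filter_upwards [eventually_ge_atTop 1] with H hH
      exact hup H hH
  refine ⟨∑' κ, v κ, ?_, hT⟩
  obtain ⟨C4, hC4, hex⟩ := hexa σ
  have hge : ∀ᶠ H : ℕ in atTop, 1 / C4 ≤ B H / r H := by
    filter_upwards [eventually_ge_atTop (max 1 ⌈C4⌉₊)] with H hH
    have h5 : 1 ≤ H := (le_max_left _ _).trans hH
    have h6 : C4 ≤ H := (Nat.le_ceil C4).trans (by exact_mod_cast (le_max_right _ _).trans hH)
    rw [div_le_div_iff₀ hC4 (hr0 H h5), one_mul, mul_comm]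
    refine (hex H h6).trans (mul_le_mul_of_nonneg_left ?_ hC4.le)
    exact cnt_mono fun F _ hF hP => exa_por hN hD (hθ.trans (min_le_right _ _)) hσ hF hP.1 hP.2
  exact lt_of_lt_of_le (by positivity) (ge_of_tendsto hT hge)

end Pool.Agent.Q190.MP
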